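import Pool.Agent.H68.RM.Dbl
import Pool.Agent.H34.RM.Rows3

/-!
Project RM (MP_28724c_co): rows GOODMASS, GRAMPOL, DIAGPOL.
-/

open Finset

namespace Pool.Agent.H68.RM

open Pool.Agent.H92 Pool.Agent.H34.RM Pool.Agent.H20.RM

theorem goodMass : GoodMass := by
  intro V _ X W r r' C C' δ1 δ2 e0 εF hW hr hδ1 hδ2 h1 h2 h3 h4 h5 h6 Ξ hΞ hmem
  set S := ∑ x ∈ X, W x with hS
  have c1 := conc (X := X) (u := W) (e := r) hW (em := 1) (e0 := e0) (S := S) (δ := δ1)
    one_pos hδ1 hS (fun x hx h => (hr x hx h).1) (by simpa using h1) (by simpa using h2)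
  have c2 := conc (X := X) (u := W) (e := r') hW (em := 1) (e0 := e0) (S := S) (δ := δ1)
    one_pos hδ1 hS (fun x hx h => (hr x hx h).2) (by simpa using h3) (by simpa using h4)
  have c3 := markov hW (f := fun x => |C x|) (A := εF) (S := S) hδ2
    (fun x _ _ => abs_nonneg _) h5
  have c4 := markov hW (f := fun x => |C' x|) (A := εF) (S := S) hδ2
    (fun x _ _ => abs_nonneg _) h6
  have hΞs : ∑ x ∈ Ξ, W x = ∑ x ∈ X, (if x ∈ Ξ then W x else 0) := by
    rw [Finset.sum_ite_mem, Finset.inter_eq_right.2 hΞ]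
  have hp : ∀ x ∈ X, W x ≤ (if x ∈ Ξ then W x else 0)
      + (if 0 < W x ∧ δ1 * 1 < |r x - 1| then W x else 0)
      + (if 0 < W x ∧ δ1 * 1 < |r' x - 1| then W x else 0)
      + (if 0 < W x ∧ δ2 < |C x| then W x else 0)
      + (if 0 < W x ∧ δ2 < |C' x| then W x else 0) := by
    intro x hx
    have n1 : 0 ≤ (if x ∈ Ξ then W x else 0) := by
      split_ifs
      · exact hW x hx
      · exact le_rfl
    have n2 : 0 ≤ (if 0 < W x ∧ δ1 * 1 < |r x - 1| then W x else 0) := by
      split_ifs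
      · exact hW x hx
      · exact le_rfl
    have n3 : 0 ≤ (if 0 < W x ∧ δ1 * 1 < |r' x - 1| then W x else 0) := by
      split_ifs
      · exact hW x hx
      · exact le_rfl
    have n4 : 0 ≤ (if 0 < W x ∧ δ2 < |C x| then W x else 0) := by
      split_ifs
      · exact hW x hx
      · exact le_rfl
    have n5 : 0 ≤ (if 0 < W x ∧ δ2 < |C' x| then W x else 0) := by
      split_ifs
      · exact hW x hx
      · exact le_rfl
    rcases (hW x hx).eq_or_lt with h0 | h0
    · rw [← h0] at n1 n2 n3 n4 n5 ⊢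
      linarith
    · by_cases k1 : δ1 * 1 < |r x - 1|
      · rw [if_pos (⟨h0, k1⟩ : 0 < W x ∧ δ1 * 1 < |r x - 1|)] at n2 ⊢
        linarith
      by_cases k2 : δ1 * 1 < |r' x - 1|
      · rw [if_pos (⟨h0, k2⟩ : 0 < W x ∧ δ1 * 1 < |r' x - 1|)] at n3 ⊢
        linarith
      by_cases k3 : δ2 < |C x|
      · rw [if_pos (⟨h0, k3⟩ : 0 < W x ∧ δ2 < |C x|)] at n4 ⊢
        linarith
      by_cases k4 : δ2 < |C' x|
      · rw [if_pos (⟨h0, k4⟩ : 0 < W x ∧ δ2 < |C' x|)] at n5 ⊢
        linarith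
      rw [mul_one] at k1 k2
      have hm := hmem x hx h0 (not_lt.1 k1) (not_lt.1 k2) (not_lt.1 k3) (not_lt.1 k4)
      rw [if_pos hm] at n1 ⊢
      linarith
  have h7 := Finset.sum_le_sum hp
  rw [Finset.sum_add_distrib, Finset.sum_add_distrib, Finset.sum_add_distrib,
    Finset.sum_add_distrib, ← hΞs, ← hS] at h7
  have e : (1 - (6 * e0 / δ1 ^ 2 + 2 * εF / δ2)) * S
      = S - 3 * e0 / δ1 ^ 2 * S - 3 * e0 / δ1 ^ 2 * S - εF / δ2 * S - εF / δ2 * S := by ring
  rw [e]
  linarith

theorem gramPol : GramPol := by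
  intro V _ G _ Ξ Y Z nu ze W hnu hze al be n cf hal hbe hn hcf
  set cf' : ℕ → ℕ → ℝ := fun i j => if i = 0 ∧ j = 0 then 0 else cf i j with hcf'
  have hcf0 : ∀ i j, 0 ≤ cf' i j := fun i j => by
    simp only [hcf']
    split_ifs
    · exact le_rfl
    · exact hcf i j
  have hpol : ∀ y z : ℝ, pol n cf y z = cf 0 0 + pol n cf' y z := by
    intro y z
    unfold pol
    have e1 : ∀ i ∈ range n, ∀ j ∈ range n, cf i j * (y ^ i * z ^ j)
        = (if i = 0 then (if j = 0 then cf 0 0 else 0) else 0) + cf' i j * (y ^ i * z ^ j) := by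
      intro i _ j _
      simp only [hcf']
      rcases eq_or_ne i 0 with hi | hi
      · rcases eq_or_ne j 0 with hj | hj
        · subst hi
          subst hj
          simp
        · simp [hi, hj]
      · simp [hi]
    rw [Finset.sum_congr rfl fun i hi => Finset.sum_congr rfl (e1 i hi)]
    simp only [Finset.sum_add_distrib]
    congr 1
    have h0 : (0 : ℕ) ∈ range n := Finset.mem_range.2 (by omega)
    rw [Finset.sum_eq_single_of_mem 0 h0 (fun i _ hi => by simp [hi])]
    simp only [if_true]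
    rw [Finset.sum_ite_eq' , if_pos h0]
  have hGr : Gr (fun x x' => pol n cf' (al * KR G Y nu x x') (be * KB G Z ze x x')) := by
    unfold pol
    refine Gr.sum _ _ fun i _ => Gr.sum _ _ fun j _ => ?_
    exact ((((gr_KR G hnu).smul hal).pow i).mul (((gr_KB G hze).smul hbe).pow j)).smul (hcf0 i j)
  have h1 := hGr.sum_nonneg Ξ W
  have e2 : ∑ x ∈ Ξ, ∑ x' ∈ Ξ, W x * W x' * pol n cf (al * KR G Y nu x x') (be * KB G Z ze x x')
      = cf 0 0 * (∑ x ∈ Ξ, W x) ^ 2 + ∑ x ∈ Ξ, ∑ x' ∈ Ξ, W x * W x' *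
        pol n cf' (al * KR G Y nu x x') (be * KB G Z ze x x') := by
    have e3 : ∀ x ∈ Ξ, ∀ x' ∈ Ξ, W x * W x' * pol n cf (al * KR G Y nu x x')
        (be * KB G Z ze x x') = cf 0 0 * (W x * W x') + W x * W x' *
          pol n cf' (al * KR G Y nu x x') (be * KB G Z ze x x') := by
      intro x _ x' _
      rw [hpol]
      ring
    rw [Finset.sum_congr rfl fun x hx => Finset.sum_congr rfl (e3 x hx)]
    simp only [Finset.sum_add_distrib]
    congr 1
    simp only [← Finset.mul_sum]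
    rw [← Finset.sum_mul, sq]
  rw [e2]
  linarith

theorem diagPol : DiagPol := by
  intro q p n cf hq hp hcf
  refine ⟨∑ i ∈ range n, ∑ j ∈ range n, cf i j * ((1 / q) ^ i * (1 / p) ^ j), ?_, ?_⟩
  · exact Finset.sum_nonneg fun i _ => Finset.sum_nonneg fun j _ =>
      mul_nonneg (hcf i j) (by positivity)
  intro w w' em em' k k' hw hw' hem hem1 hem' hem1' hk hk'
  have hw1 : (1 : ℝ) ≤ w := by exact_mod_cast hw
  have hw1' : (1 : ℝ) ≤ w' := by exact_mod_cast hw'
  set B : ℝ := ((w : ℝ) + w') / (em * em') with hB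
  have hee : 0 < em * em' := mul_pos hem hem'
  have hee1 : em * em' ≤ 1 := mul_le_one₀ hem1 hem'.le hem1'
  have hB1 : 1 ≤ B := by
    rw [hB, le_div_iff₀ hee]
    linarith
  have hy : |(w : ℝ) / ((q + em) * em) * k| ≤ 1 / q * B := by
    rw [abs_mul, abs_of_nonneg (by positivity : (0 : ℝ) ≤ (w : ℝ) / ((q + em) * em))]
    have h1 : (w : ℝ) / ((q + em) * em) * |k| ≤ (w : ℝ) / ((q + em) * em) :=
      mul_le_of_le_one_right (by positivity) hk
    refine h1.trans ?_
    rw [hB, one_div_mul_eq_div, div_div, div_le_div_iff₀ (by positivity) (by positivity)]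
    have h2 : (w : ℝ) * (em * em' * q) ≤ w * ((q + em) * em) := by
      refine mul_le_mul_of_nonneg_left ?_ (by positivity)
      have h3 : em * em' * q ≤ em * 1 * q := by
        refine mul_le_mul_of_nonneg_right ?_ hq.le
        exact mul_le_mul_of_nonneg_left hem1' hem.le
      nlinarith [mul_pos hem hem]
    have h3 : (w : ℝ) * ((q + em) * em) ≤ (w + w') * ((q + em) * em) :=
      mul_le_mul_of_nonneg_right (by linarith) (by positivity)
    linarith
  have hz : |(w' : ℝ) / ((p + em') * em') * k'| ≤ 1 / p * B := by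
    rw [abs_mul, abs_of_nonneg (by positivity : (0 : ℝ) ≤ (w' : ℝ) / ((p + em') * em'))]
    have h1 : (w' : ℝ) / ((p + em') * em') * |k'| ≤ (w' : ℝ) / ((p + em') * em') :=
      mul_le_of_le_one_right (by positivity) hk'
    refine h1.trans ?_
    rw [hB, one_div_mul_eq_div, div_div, div_le_div_iff₀ (by positivity) (by positivity)]
    have h2 : (w' : ℝ) * (em * em' * p) ≤ w' * ((p + em') * em') := by
      refine mul_le_mul_of_nonneg_left ?_ (by positivity)
      have h3 : em * em' * p ≤ 1 * em' * p := by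
        refine mul_le_mul_of_nonneg_right ?_ hp.le
        exact mul_le_mul_of_nonneg_right hem1 hem'.le
      nlinarith [mul_pos hem' hem']
    have h3 : (w' : ℝ) * ((p + em') * em') ≤ (w + w') * ((p + em') * em') :=
      mul_le_mul_of_nonneg_right (by linarith) (by positivity)
    linarith
  unfold pol
  rw [Finset.sum_mul]
  refine Finset.sum_le_sum fun i hi => ?_
  rw [Finset.sum_mul]
  refine Finset.sum_le_sum fun j hj => ?_
  rw [mul_assoc]
  refine mul_le_mul_of_nonneg_left ?_ (hcf i j)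
  have hi' := Finset.mem_range.1 hi
  have hj' := Finset.mem_range.1 hj
  refine (le_abs_self _).trans ?_
  rw [abs_mul, abs_pow, abs_pow]
  have h1 := pow_le_pow_left₀ (abs_nonneg _) hy i
  have h2 := pow_le_pow_left₀ (abs_nonneg _) hz j
  refine (mul_le_mul h1 h2 (by positivity) (by positivity)).trans ?_
  rw [mul_pow, mul_pow]
  have e : (1 / q) ^ i * B ^ i * ((1 / p) ^ j * B ^ j) = (1 / q) ^ i * (1 / p) ^ j * B ^ (i + j) := by
    rw [pow_add]
    ring
  rw [e]
  refine mul_le_mul_of_nonneg_left ?_ (by positivity)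
  exact pow_le_pow_right₀ hB1 (by omega)

end Pool.Agent.H68.RM
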