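import Pool.Agent.H34.RM.Rows2

/-!
Project RM (MP_28724c_co), row C2: at a maximiser the Renyi density has no tail.
-/

open Finset Filter Topology

namespace Pool.Agent.H68.RM

open Pool.Agent.H92 Pool.Agent.H34.RM

theorem deriv_nonneg_of_right {φ : ℝ → ℝ} {c δ : ℝ} (hδ : 0 < δ) (h : HasDerivAt φ c 0)
    (h0 : φ 0 = 0) (hp : ∀ s, 0 < s → s < δ → 0 ≤ φ s) : 0 ≤ c := by
  have h1 : Tendsto (fun s => s⁻¹ • (φ (0 + s) - φ 0)) (𝓝[>] 0) (𝓝 c) :=
    h.tendsto_slope_zero_right
  refine ge_of_tendsto h1 ?_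
  filter_upwards [Ioo_mem_nhdsGT hδ] with s hs
  rw [zero_add, h0, sub_zero, smul_eq_mul]
  exact mul_nonneg (inv_nonneg.2 hs.1.le) (hp s hs.1 hs.2)

theorem log_mono {x w W : ℝ} (hx : 0 ≤ x) (hW : 0 < W) (hw : W ≤ w) :
    W * Real.log (1 + x / W) ≤ w * Real.log (1 + x / w) := by
  have hw0 : 0 < w := lt_of_lt_of_le hW hw
  have h1 : 1 + w / W * (x / w) ≤ (1 + x / w) ^ (w / W) :=
    one_add_mul_self_le_rpow_one_add (by
      have : 0 ≤ x / w := div_nonneg hx hw0.le
      linarith) ((one_le_div hW).2 hw)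
  have e1 : 1 + w / W * (x / w) = 1 + x / W := by
    field_simp
  rw [e1] at h1
  have h2 : 0 < 1 + x / W := by
    have : 0 ≤ x / W := div_nonneg hx hW.le
    linarith
  have h3 : 0 < 1 + x / w := by
    have : 0 ≤ x / w := div_nonneg hx hw0.le
    linarith
  have h4 := Real.log_le_log h2 h1
  rw [Real.log_rpow h3] at h4
  have h5 := mul_le_mul_of_nonneg_left h4 hW.le
  refine h5.trans (le_of_eq ?_)
  field_simp

theorem Ry_pos {V : Type} {d : ℝ} {Y : Finset V} {nu : V → ℝ} (h : IsProb Y nu) :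
    0 < Ry d Y nu := by
  have h1 : ∃ y ∈ Y, nu y ≠ 0 := by
    by_contra hn
    push Not at hn
    have h2 := h.sum
    rw [Finset.sum_eq_zero hn] at h2
    exact zero_ne_one h2
  obtain ⟨y, hy, hy0⟩ := h1
  have h3 : 0 < nu y := lt_of_le_of_ne (h.nonneg y) (Ne.symm hy0)
  exact Finset.sum_pos' (fun z _ => Real.rpow_nonneg (h.nonneg z) _)
    ⟨y, hy, Real.rpow_pos_of_pos h3 _⟩

theorem Td_nonneg {V : Type} {d : ℝ} {Y : Finset V} {nu : V → ℝ} (h : IsProb Y nu) (y : V) :
    0 ≤ Td d Y nu y := div_nonneg (Real.rpow_nonneg (h.nonneg y) _) (Ry_pos h).le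

theorem nu_Td {V : Type} {d : ℝ} (hd : 0 < d) {Y : Finset V} {nu : V → ℝ} (h : IsProb Y nu)
    (y : V) : nu y ^ (1 + d) = Ry d Y nu * (nu y * Td d Y nu y) := by
  have hR := (Ry_pos (d := d) h).ne'
  unfold Td
  rw [Real.rpow_one_add' (h.nonneg y) (by linarith)]
  field_simp

/-- first order condition for the conditioning on a set -/
theorem first_order {V : Type} {a b d : ℝ} (hd : 0 < d)
    {Y : Finset V} {nu g f : V → ℝ} {w : ℝ} (hnu : IsProb Y nu) {K : ℝ} (hK : 0 < K)
    (hf1 : ∀ y, f y ≤ K) (hfs : ∑ y ∈ Y, nu y * f y = 1)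
    (hmax : ∀ f : V → ℝ, (∀ y, 0 ≤ f y) → ∑ y ∈ Y, nu y * f y = 1 →
        0 < 1 + ∑ y ∈ Y, nu y * ((f y - 1) * g y) →
        a * w * Real.log (1 + ∑ y ∈ Y, nu y * ((f y - 1) * g y))
          ≤ (b / d) * Real.log (Ry d Y (fun y => nu y * f y) / Ry d Y nu)) :
    b * (1 + d) / d * (∑ y ∈ Y, nu y * (f y * Td d Y nu y) - 1)
      ≤ a * w * ∑ y ∈ Y, nu y * ((f y - 1) * g y) := by
  set D := ∑ y ∈ Y, nu y * ((f y - 1) * g y) with hD
  have hR := Ry_pos (d := d) hnu
  have hder : HasDerivAt (fun s : ℝ => (b / d) * Real.log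
      ((∑ y ∈ Y, (nu y * (1 + s * (1 - f y))) ^ (1 + d)) / Ry d Y nu)
        - a * w * Real.log (1 - s * D))
      ((b / d) * (1 + d) * (1 - ∑ y ∈ Y, nu y * (f y * Td d Y nu y)) + a * w * D) 0 := by
    have h1 : ∀ y ∈ Y, HasDerivAt (fun s : ℝ => (nu y * (1 + s * (1 - f y))) ^ (1 + d))
        (nu y * (1 - f y) * (1 + d) * (nu y * (1 + 0 * (1 - f y))) ^ (1 + d - 1)) 0 := by
      intro y _
      have h2 : HasDerivAt (fun s : ℝ => nu y * (1 + s * (1 - f y))) (nu y * (1 - f y)) 0 := by
        have h3 : HasDerivAt (fun s : ℝ => 1 + s * (1 - f y)) (1 - f y) 0 := by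
          have := ((hasDerivAt_id (0 : ℝ)).mul_const (1 - f y)).const_add 1
          simpa using this
        exact h3.const_mul (nu y)
      exact h2.rpow_const (Or.inr (by linarith))
    have h4 := HasDerivAt.fun_sum h1
    have h5 := h4.div_const (Ry d Y nu)
    have hval : (∑ y ∈ Y, (nu y * (1 + 0 * (1 - f y))) ^ (1 + d)) / Ry d Y nu = 1 := by
      have : (∑ y ∈ Y, (nu y * (1 + 0 * (1 - f y))) ^ (1 + d)) = Ry d Y nu := by
        unfold Ry
        refine Finset.sum_congr rfl fun y _ => ?_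
        rw [zero_mul, add_zero, mul_one]
      rw [this, div_self hR.ne']
    have h6 := (h5.log (by rw [hval]; exact one_ne_zero)).const_mul (b / d)
    have h7 : HasDerivAt (fun s : ℝ => 1 - s * D) (-D) 0 := by
      have := ((hasDerivAt_id (0 : ℝ)).mul_const D).const_sub 1
      simpa using this
    have h8 := (h7.log (by norm_num)).const_mul (a * w)
    have h9 := h6.sub h8
    refine h9.congr_deriv ?_
    rw [hval]
    have e1 : ∑ y ∈ Y, nu y * (1 - f y) * (1 + d) * (nu y * (1 + 0 * (1 - f y))) ^ (1 + d - 1)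
        = (1 + d) * Ry d Y nu * (1 - ∑ y ∈ Y, nu y * (f y * Td d Y nu y)) := by
      have e2 : ∀ y ∈ Y, nu y * (1 - f y) * (1 + d) * (nu y * (1 + 0 * (1 - f y))) ^ (1 + d - 1)
          = (1 + d) * (nu y ^ (1 + d)) - (1 + d) * Ry d Y nu * (nu y * (f y * Td d Y nu y)) := by
        intro y _
        have e3 : (nu y * (1 + 0 * (1 - f y))) ^ (1 + d - 1) = Ry d Y nu * Td d Y nu y := by
          rw [zero_mul, add_zero, mul_one, add_sub_cancel_left]
          unfold Td
          field_simp
        rw [e3, nu_Td hd hnu]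
        ring
      rw [Finset.sum_congr rfl e2, Finset.sum_sub_distrib, ← Finset.mul_sum, ← Finset.mul_sum]
      unfold Ry
      ring
    rw [e1]
    field_simp
    ring
  have hev : ∃ δ : ℝ, 0 < δ ∧ ∀ s, 0 < s → s < δ → 0 ≤ (b / d) * Real.log
      ((∑ y ∈ Y, (nu y * (1 + s * (1 - f y))) ^ (1 + d)) / Ry d Y nu)
        - a * w * Real.log (1 - s * D) := by
    refine ⟨min (1 / K) (1 / (1 + |D|)), by positivity, fun s hs hs2 => ?_⟩
    have hs3 : s < 1 / K := lt_of_lt_of_le hs2 (min_le_left _ _)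
    have hs4 : s < 1 / (1 + |D|) := lt_of_lt_of_le hs2 (min_le_right _ _)
    rw [lt_div_iff₀ hK] at hs3
    rw [lt_div_iff₀ (by positivity)] at hs4
    have hsD : s * D < 1 := by
      have h1 : s * D ≤ s * |D| := mul_le_mul_of_nonneg_left (le_abs_self D) hs.le
      nlinarith
    have key := hmax (fun y => 1 + s * (1 - f y)) (fun y => by
      have h1 : s * f y ≤ s * K := mul_le_mul_of_nonneg_left (hf1 y) hs.le
      nlinarith) (by
      have e : ∀ y ∈ Y, nu y * (1 + s * (1 - f y)) = (1 + s) * nu y - s * (nu y * f y) :=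
        fun y _ => by ring
      rw [Finset.sum_congr rfl e, Finset.sum_sub_distrib, ← Finset.mul_sum, ← Finset.mul_sum,
        hfs, hnu.sum]
      ring)
    have e : ∑ y ∈ Y, nu y * ((1 + s * (1 - f y) - 1) * g y) = - (s * D) := by
      rw [hD, Finset.mul_sum, ← Finset.sum_neg_distrib]
      exact Finset.sum_congr rfl fun y _ => by ring
    simp only [e] at key
    rw [← sub_eq_add_neg] at key
    have := key (by linarith)
    unfold Ry at this ⊢
    linarith
  obtain ⟨δ, hδ, hpos⟩ := hev
  have hfin := deriv_nonneg_of_right hδ hder (by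
    have : (∑ y ∈ Y, (nu y * (1 + 0 * (1 - f y))) ^ (1 + d)) = Ry d Y nu := by
      unfold Ry
      refine Finset.sum_congr rfl fun y _ => ?_
      rw [zero_mul, add_zero, mul_one]
    simp only [this]
    rw [div_self hR.ne', zero_mul, sub_zero, Real.log_one]
    ring) hpos
  have e : b * (1 + d) / d * (∑ y ∈ Y, nu y * (f y * Td d Y nu y) - 1)
      = - ((b / d) * (1 + d) * (1 - ∑ y ∈ Y, nu y * (f y * Td d Y nu y))) := by
    ring
  rw [e]
  linarith

/-- ROW C2. -/
theorem rowC2 : RowC2 := by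
  intro a b d ha hb hd hd1 ε hε
  obtain ⟨W, hW⟩ := exists_nat_ge (b / a * (2 + 1 / d))
  have hW0 : (0 : ℝ) < W := lt_of_lt_of_le (by positivity) hW
  set β := b * (1 + d) / (a * d) with hβ
  have hβ0 : 0 < β := by positivity
  set C := -(a * W / b * Real.log (β / (2 * W))) with hC
  refine ⟨2 + Real.exp C / ε, W, by positivity, ?_⟩
  intro V _ Y nu g w hnu hw hmax
  set t0 := 2 + Real.exp C / ε with ht0
  have ht02 : 2 ≤ t0 := by
    have : 0 < Real.exp C / ε := by positivity
    linarith
  have hR := Ry_pos (d := d) hnu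
  set ρ := ∑ y ∈ Y, nu y * (if t0 < Td d Y nu y then 1 else 0) with hρ
  set m := ∑ y ∈ Y, nu y * (if t0 < Td d Y nu y then Td d Y nu y else 0) with hm
  have hρm : t0 * ρ ≤ m := by
    rw [hρ, hm, Finset.mul_sum]
    refine Finset.sum_le_sum fun y _ => ?_
    split_ifs with h
    · have := mul_le_mul_of_nonneg_left h.le (hnu.nonneg y)
      linarith
    · simp
  have hρ0 : 0 ≤ ρ := Finset.sum_nonneg fun y _ => mul_nonneg (hnu.nonneg y) (by
    split_ifs <;> norm_num)
  rcases hρ0.eq_or_lt with h0 | hρp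
  · have hz : ∀ y ∈ Y, nu y * (if t0 < Td d Y nu y then (1 : ℝ) else 0) = 0 := by
      refine (Finset.sum_eq_zero_iff_of_nonneg fun y _ => mul_nonneg (hnu.nonneg y) (by
        split_ifs <;> norm_num)).1 h0.symm
    have : m = 0 := by
      rw [hm]
      refine Finset.sum_eq_zero fun y hy => ?_
      have h1 := hz y hy
      split_ifs at h1 ⊢ with h
      · rw [mul_one] at h1
        rw [h1, zero_mul]
      · simp
    rw [this]
    exact hε.le
  · have hmp : 0 < m := lt_of_lt_of_le (by positivity) hρm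
    set f : V → ℝ := fun y => (if t0 < Td d Y nu y then 1 else 0) / ρ with hf
    have hf0 : ∀ y, 0 ≤ f y := fun y => by
      rw [hf]
      refine div_nonneg ?_ hρ0
      split_ifs <;> norm_num
    have hfs : ∑ y ∈ Y, nu y * f y = 1 := by
      have e : ∀ y ∈ Y, nu y * f y = (nu y * (if t0 < Td d Y nu y then 1 else 0)) / ρ :=
        fun y _ => by
          simp only [hf]
          ring
      rw [Finset.sum_congr rfl e, ← Finset.sum_div, ← hρ, div_self hρp.ne']
    have hfT : ∑ y ∈ Y, nu y * (f y * Td d Y nu y) = m / ρ := by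
      rw [hm, Finset.sum_div]
      refine Finset.sum_congr rfl fun y _ => ?_
      simp only [hf]
      split_ifs <;> ring
    have hRf : Ry d Y (fun y => nu y * f y) / Ry d Y nu = m / ρ ^ (1 + d) := by
      rw [div_eq_div_iff hR.ne' (Real.rpow_pos_of_pos hρp _).ne']
      unfold Ry
      rw [hm, Finset.sum_mul, Finset.sum_mul]
      refine Finset.sum_congr rfl fun y _ => ?_
      have h1 := nu_Td hd hnu y
      unfold Ry at h1
      simp only [hf]
      split_ifs with h
      · rw [mul_one_div, Real.div_rpow (hnu.nonneg y) hρ0, h1,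
          div_mul_cancel₀ _ (Real.rpow_pos_of_pos hρp _).ne']
        ring
      · rw [zero_div, mul_zero, Real.zero_rpow (by linarith)]
        ring
    have hfo := first_order (a := a) (b := b) (w := (w : ℝ)) hd hnu (K := 1 / ρ)
      (by positivity) (f := f) (g := g) (fun y => by
        simp only [hf]
        refine div_le_div_of_nonneg_right ?_ hρ0
        split_ifs <;> norm_num) hfs hmax
    rw [hfT] at hfo
    set D := ∑ y ∈ Y, nu y * ((f y - 1) * g y) with hD
    set τ := m / ρ with hτ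
    have hτt : t0 ≤ τ := by
      rw [hτ, le_div_iff₀ hρp]
      exact hρm
    have hw1 : (W : ℝ) ≤ w := by exact_mod_cast hw
    have hw0 : (0 : ℝ) < w := lt_of_lt_of_le hW0 hw1
    have hDl : β * (τ - 1) / w ≤ D := by
      rw [div_le_iff₀ hw0]
      have e : b * (1 + d) / d = a * β := by
        rw [hβ]
        field_simp
      rw [e] at hfo
      have h2 : a * (β * (τ - 1)) ≤ a * (D * w) := by nlinarith
      exact le_of_mul_le_mul_left h2 ha
    have hx0 : 0 ≤ β * (τ - 1) := mul_nonneg hβ0.le (by linarith)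
    have hD0 : 0 < 1 + D := by
      have : 0 ≤ β * (τ - 1) / w := div_nonneg hx0 hw0.le
      linarith
    have hk := hmax f hf0 hfs hD0
    rw [hRf] at hk
    have hlog : Real.log (m / ρ ^ (1 + d)) = Real.log τ - d * Real.log ρ := by
      rw [Real.log_div hmp.ne' (Real.rpow_pos_of_pos hρp _).ne', Real.log_rpow hρp, hτ,
        Real.log_div hmp.ne' hρp.ne']
      ring
    rw [hlog] at hk
    have h1 : Real.log (1 + β * (τ - 1) / w) ≤ Real.log (1 + D) := by
      refine Real.log_le_log ?_ (by linarith)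
      have : 0 ≤ β * (τ - 1) / w := div_nonneg hx0 hw0.le
      linarith
    have h2 := log_mono hx0 hW0 hw1
    have hτ0 : 0 < τ := by linarith
    have h3 : Real.log (β / (2 * W)) + Real.log τ ≤ Real.log (1 + β * (τ - 1) / W) := by
      rw [← Real.log_mul (by positivity) hτ0.ne']
      refine Real.log_le_log (by positivity) ?_
      have e : β / (2 * W) * τ = (β * (τ / 2)) / W := by
        field_simp
      rw [e]
      have h4 : β * (τ / 2) / W ≤ β * (τ - 1) / W := by
        refine div_le_div_of_nonneg_right ?_ hW0.le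
        exact mul_le_mul_of_nonneg_left (by linarith) hβ0.le
      linarith
    -- collect
    have h5 : a * (W * (Real.log (β / (2 * W)) + Real.log τ))
        ≤ b / d * (Real.log τ - d * Real.log ρ) := by
      have h6 : a * (W * (Real.log (β / (2 * W)) + Real.log τ))
          ≤ a * (W * Real.log (1 + β * (τ - 1) / W)) :=
        mul_le_mul_of_nonneg_left (mul_le_mul_of_nonneg_left h3 hW0.le) ha.le
      have h7 : a * (W * Real.log (1 + β * (τ - 1) / W))
          ≤ a * (w * Real.log (1 + β * (τ - 1) / w)) :=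
        mul_le_mul_of_nonneg_left h2 ha.le
      have h8 : a * (w * Real.log (1 + β * (τ - 1) / w)) ≤ a * (w * Real.log (1 + D)) :=
        mul_le_mul_of_nonneg_left (mul_le_mul_of_nonneg_left h1 hw0.le) ha.le
      have h9 : a * (w * Real.log (1 + D)) = a * w * Real.log (1 + D) := by ring
      linarith
    have h6 : a * W / b * (Real.log (β / (2 * W)) + Real.log τ)
        ≤ 1 / d * Real.log τ - Real.log ρ := by
      have e1 : a * W / b * (Real.log (β / (2 * W)) + Real.log τ)
          = a * (W * (Real.log (β / (2 * W)) + Real.log τ)) / b := by ring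
      rw [e1, div_le_iff₀ hb]
      refine h5.trans (le_of_eq ?_)
      field_simp
    have h7 : Real.log m = Real.log ρ + Real.log τ := by
      rw [hτ, Real.log_div hmp.ne' hρp.ne']
      ring
    have hlτ : 0 ≤ Real.log τ := Real.log_nonneg (by linarith)
    have hκ : 2 + 1 / d ≤ a * W / b := by
      rw [le_div_iff₀ hb]
      have h8 := mul_le_mul_of_nonneg_left hW ha.le
      have e : a * (b / a * (2 + 1 / d)) = (2 + 1 / d) * b := by
        field_simp
      rw [e] at h8
      exact h8
    have h8 : Real.log m ≤ C - Real.log τ := by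
      have h9 : (2 + 1 / d) * Real.log τ ≤ a * W / b * Real.log τ :=
        mul_le_mul_of_nonneg_right hκ hlτ
      rw [h7, hC]
      nlinarith
    have h9 : C - Real.log ε ≤ Real.log τ := by
      have h10 : Real.exp C / ε ≤ τ := by linarith
      have h11 := Real.log_le_log (by positivity) h10
      rw [Real.log_div (Real.exp_pos C).ne' hε.ne', Real.log_exp] at h11
      exact h11
    exact (Real.log_le_log_iff hmp hε).1 (by linarith)

end Pool.Agent.H68.RM
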