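import Pool.Agent.H68.RM.RowC2
import Pool.Agent.H20.RM.Gram

/-!
Project RM (MP_28724c_co): the double sum over the good set, independent of the shape of the
certificate, and the good set.
-/

open Finset

namespace Pool.Agent.H68.RM

open Pool.Agent.H92 Pool.Agent.H34.RM

/-- The double sum. `P` is the test kernel, `FR`, `FB` the kernels of the red and of the blue
children, `E` the kernel of the errors. -/
theorem dbl {V : Type} [DecidableEq V] (G : SimpleGraph V) [DecidableRel G.Adj]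
    {X Xi : Finset V} (hXi : Xi ⊆ X) {u : V → ℝ} (hu : ∀ x, 0 ≤ u x)
    {P FR FB E : V → V → ℝ} {c0 la la' ε δ AR AB M S : ℝ} (hla : 0 ≤ la) (hla' : 0 ≤ la')
    (hε : 0 ≤ ε) (hFR : ∀ x x', 0 ≤ FR x x') (hFB : ∀ x x', 0 ≤ FB x x')
    (hE : ∀ x x', 0 ≤ E x x')
    (h1 : ∀ x ∈ Xi, ∀ x' ∈ Xi, G.Adj x x' → P x x' ≤ la * FR x x' + ε * E x x')
    (h2 : ∀ x ∈ Xi, ∀ x' ∈ Xi, x' ≠ x → ¬ G.Adj x x' → P x x' ≤ la' * FB x x' + ε * E x x')
    (h3 : c0 * (∑ x ∈ Xi, u x) ^ 2 ≤ ∑ x ∈ Xi, ∑ x' ∈ Xi, u x * u x' * P x x')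
    (h4 : ∀ x ∈ Xi, u x * P x x ≤ δ * S)
    (h5 : ∀ x ∈ Xi, ∑ x' ∈ rN G x X, u x' * FR x x' ≤ AR * S)
    (h6 : ∀ x ∈ Xi, ∑ x' ∈ bN G x X, u x' * FB x x' ≤ AB * S)
    (h7 : ∀ x ∈ Xi, ∑ x' ∈ X, u x' * E x x' ≤ M * S) :
    c0 * (∑ x ∈ Xi, u x) ^ 2 ≤ (∑ x ∈ Xi, u x) * (S * (δ + la * AR + la' * AB + ε * M)) := by
  refine h3.trans ?_
  rw [Finset.sum_mul]
  refine Finset.sum_le_sum fun x hx => ?_
  have e1 : ∑ x' ∈ Xi, u x * u x' * P x x' = u x * ∑ x' ∈ Xi, u x' * P x x' := by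
    rw [Finset.mul_sum]
    exact Finset.sum_congr rfl fun x' _ => by ring
  rw [e1]
  refine mul_le_mul_of_nonneg_left ?_ (hu x)
  -- pointwise bound
  have hp : ∀ x' ∈ Xi, u x' * P x x' ≤ (if x' = x then δ * S else 0)
      + ((if G.Adj x x' then la * (u x' * FR x x') else 0)
      + (if x' ≠ x ∧ ¬ G.Adj x x' then la' * (u x' * FB x x') else 0)) + ε * (u x' * E x x') := by
    intro x' hx'
    have hEE : 0 ≤ ε * (u x' * E x x') := mul_nonneg hε (mul_nonneg (hu x') (hE x x'))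
    rcases eq_or_ne x' x with h | h
    · subst h
      have h8 := h4 x' hx
      rw [if_pos rfl, if_neg (G.loopless.irrefl x'), if_neg (by simp)]
      linarith
    · rw [if_neg h]
      by_cases hadj : G.Adj x x'
      · have h8 := mul_le_mul_of_nonneg_left (h1 x hx x' hx' hadj) (hu x')
        rw [if_pos hadj, if_neg (by simp [hadj])]
        nlinarith
      · have h8 := mul_le_mul_of_nonneg_left (h2 x hx x' hx' h hadj) (hu x')
        rw [if_neg hadj, if_pos ⟨h, hadj⟩]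
        nlinarith
  refine (Finset.sum_le_sum hp).trans ?_
  rw [Finset.sum_add_distrib, Finset.sum_add_distrib, Finset.sum_add_distrib,
    Finset.sum_ite_eq' , if_pos hx, ← Finset.mul_sum]
  have hr : ∑ x' ∈ Xi, (if G.Adj x x' then la * (u x' * FR x x') else 0) ≤ la * (AR * S) := by
    calc ∑ x' ∈ Xi, (if G.Adj x x' then la * (u x' * FR x x') else 0)
        ≤ ∑ x' ∈ X, (if G.Adj x x' then la * (u x' * FR x x') else 0) := by
          refine Finset.sum_le_sum_of_subset_of_nonneg hXi fun x' _ _ => ?_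
          split_ifs
          · exact mul_nonneg hla (mul_nonneg (hu x') (hFR x x'))
          · exact le_rfl
      _ = la * ∑ x' ∈ rN G x X, u x' * FR x x' := by
          unfold rN
          rw [Finset.sum_filter, Finset.mul_sum]
          refine Finset.sum_congr rfl fun x' _ => ?_
          split_ifs <;> simp
      _ ≤ _ := mul_le_mul_of_nonneg_left (h5 x hx) hla
  have hb : ∑ x' ∈ Xi, (if x' ≠ x ∧ ¬ G.Adj x x' then la' * (u x' * FB x x') else 0)
      ≤ la' * (AB * S) := by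
    calc ∑ x' ∈ Xi, (if x' ≠ x ∧ ¬ G.Adj x x' then la' * (u x' * FB x x') else 0)
        ≤ ∑ x' ∈ X, (if x' ≠ x ∧ ¬ G.Adj x x' then la' * (u x' * FB x x') else 0) := by
          refine Finset.sum_le_sum_of_subset_of_nonneg hXi fun x' _ _ => ?_
          split_ifs
          · exact mul_nonneg hla' (mul_nonneg (hu x') (hFB x x'))
          · exact le_rfl
      _ = la' * ∑ x' ∈ bN G x X, u x' * FB x x' := by
          unfold bN
          rw [Finset.sum_filter, Finset.mul_sum]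
          refine Finset.sum_congr rfl fun x' _ => ?_
          split_ifs <;> simp
      _ ≤ _ := mul_le_mul_of_nonneg_left (h6 x hx) hla'
  have he : ε * ∑ x' ∈ Xi, u x' * E x x' ≤ ε * (M * S) := by
    refine mul_le_mul_of_nonneg_left (le_trans ?_ (h7 x hx)) hε
    exact Finset.sum_le_sum_of_subset_of_nonneg hXi fun x' _ _ =>
      mul_nonneg (hu x') (hE x x')
  nlinarith

/-- Markov inequality for a finite sum. -/
theorem markov {V : Type} {X : Finset V} {u f : V → ℝ} (hu : ∀ x ∈ X, 0 ≤ u x)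
    {A S δ : ℝ} (hδ : 0 < δ) (hf : ∀ x ∈ X, 0 < u x → 0 ≤ f x)
    (h : ∑ x ∈ X, u x * f x ≤ A * S) :
    ∑ x ∈ X, (if 0 < u x ∧ δ < f x then u x else 0) ≤ A / δ * S := by
  have h1 : δ * ∑ x ∈ X, (if 0 < u x ∧ δ < f x then u x else 0) ≤ A * S := by
    refine le_trans ?_ h
    rw [Finset.mul_sum]
    refine Finset.sum_le_sum fun x hx => ?_
    split_ifs with h2
    · nlinarith [h2.1, h2.2]
    · rw [mul_zero]
      rcases (hu x hx).eq_or_lt with h3 | h3
      · rw [← h3, zero_mul]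
      · exact mul_nonneg h3.le (hf x hx h3)
  have e : A / δ * S = (A * S) / δ := by ring
  rw [e, le_div_iff₀ hδ]
  linarith

/-- concentration of the excess from its second and inverse moments -/
theorem conc {V : Type} {X : Finset V} {u e : V → ℝ} (hu : ∀ x ∈ X, 0 ≤ u x) {em e0 S δ : ℝ}
    (hem : 0 < em) (hδ : 0 < δ) (hS : S = ∑ x ∈ X, u x) (he : ∀ x ∈ X, 0 < u x → 0 < e x)
    (h1 : ∑ x ∈ X, u x * (e x / em) ^ 2 ≤ (1 + e0) * S)
    (h2 : ∑ x ∈ X, u x * (em / e x) ≤ (1 + e0) * S) :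
    ∑ x ∈ X, (if 0 < u x ∧ δ * em < |e x - em| then u x else 0) ≤ 3 * e0 / δ ^ 2 * S := by
  have h3 : ∑ x ∈ X, u x * ((e x / em) ^ 2 + 2 * (em / e x) - 3) ≤ 3 * e0 * S := by
    have e1 : ∑ x ∈ X, u x * ((e x / em) ^ 2 + 2 * (em / e x) - 3)
        = ∑ x ∈ X, u x * (e x / em) ^ 2 + 2 * ∑ x ∈ X, u x * (em / e x) - 3 * S := by
      rw [hS, Finset.mul_sum, Finset.mul_sum, ← Finset.sum_add_distrib, ← Finset.sum_sub_distrib]
      exact Finset.sum_congr rfl fun x _ => by ring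
    rw [e1]
    linarith
  have key : ∀ x ∈ X, 0 < u x →
      (e x / em - 1) ^ 2 ≤ (e x / em) ^ 2 + 2 * (em / e x) - 3 := by
    intro x hx hux
    have h4 := he x hx hux
    set r := e x / em with hr
    have hr0 : 0 < r := div_pos h4 hem
    have e2 : em / e x = 1 / r := by
      rw [hr]
      field_simp
    rw [e2]
    have h5 : 0 ≤ (r - 1) ^ 2 / r := div_nonneg (sq_nonneg _) hr0.le
    have e3 : (r - 1) ^ 2 / r = r - 2 + 1 / r := by
      field_simp
      ring
    rw [e3] at h5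
    nlinarith
  have h6 := markov hu (f := fun x => (e x / em) ^ 2 + 2 * (em / e x) - 3) (A := 3 * e0) (S := S)
    (δ := δ ^ 2) (by positivity) (fun x hx hux => (sq_nonneg _).trans (key x hx hux)) h3
  refine le_trans (Finset.sum_le_sum fun x hx => ?_) (h6.trans (le_of_eq (by ring)))
  -- compare the indicator functions with a slightly smaller threshold
  split_ifs with h7 h8
  · exact le_rfl
  · exfalso
    apply h8
    refine ⟨h7.1, lt_of_lt_of_le ?_ (key x hx h7.1)⟩
    have e4 : e x / em - 1 = (e x - em) / em := by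
      field_simp
    rw [e4, div_pow, lt_div_iff₀ (by positivity), ← sq_abs (e x - em), ← mul_pow]
    exact pow_lt_pow_left₀ h7.2 (by positivity) (by norm_num)
  · exact hu x hx
  · exact le_rfl

end Pool.Agent.H68.RM
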